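import Pool.Agent.Helper808.OddBox.Defs

/-!
# Partitions of `[n]^d` into odd proper boxes: a composition step

A partition of `[n]^r` into boxes with odd sides, some of which are all of `[n]`, gives a recursive
construction of partitions of `[n]^(r+d)` into odd proper boxes: a box with `s` full sides is refined,
together with the last `d` coordinates, by a partition of `[n]^(s+d)` into odd proper boxes.
-/

set_option autoImplicit false

namespace Pool.Agent.R72.OddBox

open Finset Pool.Agent.Helper808.OddBox

/-- `[n]^d` has a partition into `k` odd proper boxes. -/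
def Ex (n d k : ℕ) : Prop := ∃ P : Fin k → Fin d → Finset (Fin n), IsOddPartition n d k P

theorem Ex.of_fintype {ι : Type} [Fintype ι] {n d k : ℕ} (P : ι → Fin d → Finset (Fin n))
    (h1 : ∀ j i, Odd (P j i).card ∧ P j i ≠ univ)
    (h2 : ∀ x : Fin d → Fin n, ∃! j, ∀ i, x i ∈ P j i) (hk : Fintype.card ι = k) : Ex n d k := by
  classical
  let e := Fintype.equivFinOfCardEq hk
  refine ⟨fun j => P (e.symm j), fun j i => h1 _ _, fun x => ?_⟩
  obtain ⟨j, hj, hu⟩ := h2 x
  refine ⟨e j, by simpa using hj, fun j' hj' => ?_⟩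
  have h := hu (e.symm j') hj'
  rw [← h]; simp

theorem step {Z : Type} [Fintype Z] {n r d : ℕ} (W : Z → Fin r → Finset (Fin n))
    (hW : ∀ z i, Odd (W z i).card)
    (hcov : ∀ u : Fin r → Fin n, ∃! z, ∀ i, u i ∈ W z i)
    (k : Z → ℕ) (hk : ∀ z, Ex n ((univ.filter (fun i => W z i = univ)).card + d) (k z)) :
    Ex n (r + d) (∑ z, k z) := by
  classical
  choose P hP using hk
  let F : Z → Finset (Fin r) := fun z => univ.filter (fun i => W z i = univ)
  let e : ∀ z, Fin (F z).card → Fin r := fun z => (F z).orderEmbOfFin rfl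
  have he : ∀ z, Function.Injective (e z) := fun z => ((F z).orderEmbOfFin rfl).injective
  have hmem : ∀ z l, W z (e z l) = univ := fun z l => by
    have h := (F z).orderEmbOfFin_mem rfl l
    exact (Finset.mem_filter.mp h).2
  have hran : ∀ z i, W z i = univ → ∃ l, e z l = i := by
    intro z i hi
    have h1 : i ∈ F z := Finset.mem_filter.mpr ⟨Finset.mem_univ _, hi⟩
    have h2 : i ∈ Set.range ((F z).orderEmbOfFin rfl) := by
      rw [Finset.range_orderEmbOfFin]; exact h1
    exact h2
  let A : (Σ z, Fin (k z)) → Fin r → Finset (Fin n) := fun q i =>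
    if h : ∃ l, e q.1 l = i then P q.1 q.2 (Fin.castAdd d h.choose) else W q.1 i
  have hA1 : ∀ q l, A q (e q.1 l) = P q.1 q.2 (Fin.castAdd d l) := by
    intro q l
    have h : ∃ l', e q.1 l' = e q.1 l := ⟨l, rfl⟩
    have h' : h.choose = l := he q.1 h.choose_spec
    simp only [A, dif_pos h, h']
  have hA2 : ∀ q i, (¬ ∃ l, e q.1 l = i) → A q i = W q.1 i := by
    intro q i h
    simp only [A, dif_neg h]
  have key : ∀ (q : Σ z, Fin (k z)) (x : Fin (r + d) → Fin n),
      (∀ i, x i ∈ (Fin.append (A q) (fun i => P q.1 q.2 (Fin.natAdd _ i)) :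
        Fin (r + d) → Finset (Fin n)) i) ↔
      (∀ i, x (Fin.castAdd d i) ∈ W q.1 i) ∧
        ∀ i, (Fin.append (fun l => x (Fin.castAdd d (e q.1 l))) (fun i => x (Fin.natAdd r i)) :
          Fin ((F q.1).card + d) → Fin n) i ∈ P q.1 q.2 i := by
    intro q x
    constructor
    · intro h
      refine ⟨fun i => ?_, fun i => ?_⟩
      · by_cases hi : ∃ l, e q.1 l = i
        · obtain ⟨l, rfl⟩ := hi
          rw [hmem]; exact Finset.mem_univ _
        · have h1 := h (Fin.castAdd d i)
          rw [Fin.append_left, hA2 q i hi] at h1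
          exact h1
      · refine Fin.addCases (fun l => ?_) (fun i => ?_) i
        · rw [Fin.append_left]
          have h1 := h (Fin.castAdd d (e q.1 l))
          rw [Fin.append_left, hA1] at h1
          exact h1
        · rw [Fin.append_right]
          have h1 := h (Fin.natAdd r i)
          rw [Fin.append_right] at h1
          exact h1
    · rintro ⟨h1, h2⟩ i
      refine Fin.addCases (fun i => ?_) (fun i => ?_) i
      · rw [Fin.append_left]
        by_cases hi : ∃ l, e q.1 l = i
        · obtain ⟨l, rfl⟩ := hi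
          rw [hA1]
          have h3 := h2 (Fin.castAdd d l)
          rw [Fin.append_left] at h3
          exact h3
        · rw [hA2 q i hi]; exact h1 i
      · rw [Fin.append_right]
        have h3 := h2 (Fin.natAdd _ i)
        rw [Fin.append_right] at h3
        exact h3
  refine Ex.of_fintype (ι := Σ z, Fin (k z))
    (fun q => Fin.append (A q) (fun i => P q.1 q.2 (Fin.natAdd _ i))) ?_ ?_ (by simp)
  · intro q i
    refine Fin.addCases (fun i => ?_) (fun i => ?_) i
    · rw [Fin.append_left]
      by_cases hi : ∃ l, e q.1 l = i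
      · obtain ⟨l, rfl⟩ := hi
        rw [hA1]
        exact (hP q.1).1 _ _
      · rw [hA2 q i hi]
        exact ⟨hW _ _, fun h => hi (hran _ _ h)⟩
    · rw [Fin.append_right]
      exact (hP q.1).1 _ _
  · intro x
    obtain ⟨z, hz, hzu⟩ := hcov (fun i => x (Fin.castAdd d i))
    obtain ⟨j, hj, hju⟩ := (hP z).2
      (Fin.append (fun l => x (Fin.castAdd d (e z l))) (fun i => x (Fin.natAdd r i)))
    refine ⟨⟨z, j⟩, (key ⟨z, j⟩ x).mpr ⟨hz, hj⟩, ?_⟩
    rintro ⟨z', j'⟩ h
    obtain ⟨h1, h2⟩ := (key ⟨z', j'⟩ x).mp h
    obtain rfl : z' = z := hzu z' h1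
    obtain rfl : j' = j := hju j' h2
    rfl

/-- Pulling back along `x ↦ min x 4` from `[5]^d` to `[n]^d`. -/
theorem Ex.pull {n d k : ℕ} (hn : Odd n) (h5 : 5 ≤ n) (h : Ex 5 d k) : Ex n d k := by
  classical
  obtain ⟨P, hP1, hP2⟩ := h
  let φ : Fin n → Fin 5 := fun x => ⟨min x.1 4, by omega⟩
  have hsurj : ∀ y : Fin 5, ∃ x : Fin n, φ x = y := by
    intro y
    refine ⟨⟨y.1, by omega⟩, ?_⟩
    apply Fin.ext
    have := y.2
    simp only [φ]
    omega
  have hfib : ∀ y : Fin 5, Odd (univ.filter (fun x : Fin n => φ x = y)).card := by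
    intro y
    by_cases hy : y.1 < 4
    · have : (univ.filter (fun x : Fin n => φ x = y)) = {⟨y.1, by omega⟩} := by
        ext x
        simp only [Finset.mem_filter, Finset.mem_univ, true_and, Finset.mem_singleton, Fin.ext_iff, φ]
        omega
      rw [this]; simp
    · have : (univ.filter (fun x : Fin n => φ x = y)) = univ \ (univ.filter (fun x : Fin n => x.1 < 4)) := by
        ext x
        have := y.2
        simp only [Finset.mem_filter, Finset.mem_univ, true_and, Finset.mem_sdiff, Fin.ext_iff, φ]
        omega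
      have h4 : (univ.filter (fun x : Fin n => x.1 < 4)).card = 4 := by
        have : (univ.filter (fun x : Fin n => x.1 < 4)) =
            (univ : Finset (Fin 4)).image (fun i => (⟨i.1, by omega⟩ : Fin n)) := by
          ext x
          simp only [Finset.mem_filter, Finset.mem_univ, true_and, Finset.mem_image]
          constructor
          · intro h; exact ⟨⟨x.1, h⟩, rfl⟩
          · rintro ⟨i, rfl⟩; exact i.2
        rw [this, Finset.card_image_of_injective _ (fun a b hab => by
          simpa [Fin.ext_iff] using hab)]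
        simp
      rw [this, Finset.card_sdiff_of_subset (Finset.subset_univ _), h4, Finset.card_univ,
        Fintype.card_fin]
      obtain ⟨t, ht⟩ := hn
      exact ⟨t - 2, by omega⟩
  refine ⟨fun j i => univ.filter (fun x : Fin n => φ x ∈ P j i), fun j i => ⟨?_, ?_⟩, fun x => ?_⟩
  · have h1 : (univ.filter (fun x : Fin n => φ x ∈ P j i)).card =
        ∑ y ∈ P j i, (univ.filter (fun x : Fin n => φ x = y)).card := by
      rw [Finset.card_eq_sum_card_fiberwise (f := φ) (t := P j i)
        (fun x hx => by simpa using hx)]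
      refine Finset.sum_congr rfl fun y hy => ?_
      congr 1
      ext x
      simp only [Finset.mem_filter, Finset.mem_univ, true_and]
      constructor
      · exact fun h => h.2
      · intro h; exact ⟨h ▸ hy, h⟩
    rw [h1, Finset.odd_sum_iff_odd_card_odd]
    have h2 : (P j i).filter (fun y => Odd (univ.filter (fun x : Fin n => φ x = y)).card) = P j i :=
      Finset.filter_true_of_mem fun y _ => hfib y
    rw [h2]
    exact (hP1 j i).1
  · intro h
    apply (hP1 j i).2
    ext y
    simp only [Finset.mem_univ, iff_true]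
    obtain ⟨x, rfl⟩ := hsurj y
    have h' : (univ.filter (fun x : Fin n => φ x ∈ P j i)) = univ := h
    have : x ∈ (univ.filter (fun x : Fin n => φ x ∈ P j i)) := by rw [h']; exact Finset.mem_univ _
    exact (Finset.mem_filter.mp this).2
  · obtain ⟨j, hj, hu⟩ := hP2 (fun i => φ (x i))
    refine ⟨j, fun i => Finset.mem_filter.mpr ⟨Finset.mem_univ _, hj i⟩, fun j' hj' => ?_⟩
    exact hu j' fun i => (Finset.mem_filter.mp (hj' i)).2

theorem Ex.fodd_le {n d k : ℕ} (h : Ex n d k) : fodd n d ≤ k := Nat.sInf_le h

end Pool.Agent.R72.OddBox
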