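import Pool.Agent.R72.OddBox.Step

/-!
# A partition of `[5]^3` into 21 odd boxes, 19 of them proper and 2 with one full side

Found with a SAT solver. By the composition step it gives `f(5, d+3) ≤ 19 f(5, d) + 2 f(5, d+1)`.
-/

set_option autoImplicit false

namespace Pool.Agent.R72.OddBox

open Finset Pool.Agent.Helper808.OddBox

/-- The boxes. -/
def tile : Fin 21 → Fin 3 → Finset (Fin 5) := ![
  ![{0}, {1}, {2, 3, 4}],
  ![{0}, {2}, {1, 2, 3}],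
  ![{0}, {0, 1, 2}, {0}],
  ![{0}, {0, 3, 4}, {3}],
  ![{1}, {0}, {2, 3, 4}],
  ![{1}, {2}, {0, 2, 3}],
  ![{1}, {0, 1, 2}, {1}],
  ![{1}, {1, 3, 4}, {3}],
  ![{2}, {2, 3, 4}, {0, 1, 2}],
  ![{3}, {2, 3, 4}, {0, 1, 2}],
  ![{0, 2, 3}, {0}, {1, 2, 4}],
  ![{0, 2, 3}, {1}, {1}],
  ![{1, 2, 3}, {0}, {0}],
  ![{1, 2, 3}, {1}, {0, 2, 4}],
  ![{4}, {0}, {4}],
  ![{4}, {1}, {4}],
  ![{4}, {0, 1, 2}, {0, 1, 2}],
  ![{0, 1, 4}, {3}, {0, 1, 2}],
  ![{0, 1, 4}, {4}, {0, 1, 2}],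
  ![{2, 3, 4}, {0, 1, 2, 3, 4}, {3}],
  ![{0, 1, 2, 3, 4}, {2, 3, 4}, {4}]]

theorem tile_odd : ∀ z i, Odd (tile z i).card := by decide +kernel

theorem tile_card : ∀ a b c : Fin 5,
    (univ.filter (fun z : Fin 21 => a ∈ tile z 0 ∧ b ∈ tile z 1 ∧ c ∈ tile z 2)).card = 1 := by
  decide +kernel

theorem tile_cov (u : Fin 3 → Fin 5) : ∃! z, ∀ i, u i ∈ tile z i := by
  obtain ⟨z, hz⟩ := Finset.card_eq_one.mp (tile_card (u 0) (u 1) (u 2))
  refine ⟨z, ?_, fun z' hz' => ?_⟩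
  · have h : z ∈ (univ.filter (fun z : Fin 21 => u 0 ∈ tile z 0 ∧ u 1 ∈ tile z 1 ∧ u 2 ∈ tile z 2)) := by
      rw [hz]; exact Finset.mem_singleton_self z
    have h2 := (Finset.mem_filter.mp h).2
    intro i
    fin_cases i
    · exact h2.1
    · exact h2.2.1
    · exact h2.2.2
  · have h : z' ∈ (univ.filter (fun z : Fin 21 => u 0 ∈ tile z 0 ∧ u 1 ∈ tile z 1 ∧ u 2 ∈ tile z 2)) :=
      Finset.mem_filter.mpr ⟨Finset.mem_univ _, hz' 0, hz' 1, hz' 2⟩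
    rw [hz] at h
    exact Finset.mem_singleton.mp h

/-- The number of full sides. -/
theorem tile_full : ∀ z : Fin 21, (univ.filter (fun i => tile z i = univ)).card =
    if z.1 < 19 then 0 else 1 := by decide +kernel

/-- The numbers of boxes: `K (d+3) = 19 K d + 2 K (d+1)`. -/
def K : ℕ → ℕ
  | 0 => 1
  | 1 => 3
  | 2 => 9
  | (d + 3) => 19 * K d + 2 * K (d + 1)

/-- The three odd blocks of `[5]`. -/
def blk : Fin 3 → Finset (Fin 5) := ![{0}, {1}, {2, 3, 4}]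

theorem blk_prop : ∀ z, Odd (blk z).card ∧ blk z ≠ univ := by decide +kernel

theorem blk_cov : ∀ a : Fin 5, ∃ z, a ∈ blk z ∧ ∀ z', a ∈ blk z' → z' = z := by decide +kernel

theorem ex_three_pow (d : ℕ) : Ex 5 d (3 ^ d) := by
  refine Ex.of_fintype (ι := Fin d → Fin 3) (fun j i => blk (j i)) (fun j i => blk_prop _) ?_
    (by simp)
  intro x
  choose z hz hzu using blk_cov
  exact ⟨fun i => z (x i), fun i => hz _, fun j' hj' => funext fun i => hzu _ _ (hj' i)⟩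

theorem ex_K : ∀ d : ℕ, Ex 5 d (K d) ∧ Ex 5 (d + 1) (K (d + 1)) ∧ Ex 5 (d + 2) (K (d + 2))
  | 0 => ⟨ex_three_pow 0, ex_three_pow 1, ex_three_pow 2⟩
  | (d + 1) => by
    obtain ⟨h0, h1, h2⟩ := ex_K d
    refine ⟨h1, h2, ?_⟩
    have h := step (d := d) tile tile_odd tile_cov
      (fun z => if z.1 < 19 then K d else K (d + 1)) (fun z => by
        rw [tile_full z]
        by_cases hz : z.1 < 19
        · simp only [hz, if_true, Nat.zero_add]; exact h0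
        · simp only [hz, if_false, Nat.add_comm 1 d]; exact h1)
    have hs : ∑ z : Fin 21, (if z.1 < 19 then K d else K (d + 1)) = K (d + 3) := by
      have c1 : (univ.filter (fun z : Fin 21 => z.1 < 19)).card = 19 := by decide +kernel
      have c2 : (univ.filter (fun z : Fin 21 => ¬ z.1 < 19)).card = 2 := by decide +kernel
      rw [Finset.sum_ite, Finset.sum_const, Finset.sum_const, c1, c2, smul_eq_mul, smul_eq_mul]
      rfl
    rw [hs, Nat.add_comm 3 d] at h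
    exact h

theorem K_le : ∀ d : ℕ, ((K d : ℝ) ≤ 1.06 * 2.9176 ^ d ∧ (K (d + 1) : ℝ) ≤ 1.06 * 2.9176 ^ (d + 1) ∧
    (K (d + 2) : ℝ) ≤ 1.06 * 2.9176 ^ (d + 2))
  | 0 => by
    refine ⟨?_, ?_, ?_⟩ <;> norm_num [K]
  | (d + 1) => by
    obtain ⟨h0, h1, h2⟩ := K_le d
    refine ⟨h1, h2, ?_⟩
    have hK : (K (d + 1 + 2) : ℝ) = 19 * K d + 2 * K (d + 1) := by
      have : K (d + 1 + 2) = 19 * K d + 2 * K (d + 1) := rfl
      rw [this]; push_cast; ring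
    rw [hK]
    have hp : (0 : ℝ) < 2.9176 ^ d := by positivity
    have e1 : (2.9176 : ℝ) ^ (d + 1) = 2.9176 ^ d * 2.9176 := pow_succ _ _
    have e3 : (2.9176 : ℝ) ^ (d + 1 + 2) = 2.9176 ^ d * 2.9176 ^ 3 := by
      rw [← pow_add]
    rw [e3]
    rw [e1] at h1
    nlinarith [h0, h1, hp]

theorem exists_partition {n : ℕ} (hn : Odd n) (h5 : 5 ≤ n) (d : ℕ) :
    ∃ (k : ℕ) (P : Fin k → Fin d → Finset (Fin n)),
      IsOddPartition n d k P ∧ (k : ℝ) ≤ 1.06 * 2.9176 ^ d := by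
  obtain ⟨P, hP⟩ := (ex_K d).1.pull hn h5
  exact ⟨K d, P, hP, (K_le d).1⟩

theorem fodd_le {n : ℕ} (hn : Odd n) (h5 : 5 ≤ n) (d : ℕ) :
    (fodd n d : ℝ) ≤ 1.06 * 2.9176 ^ d := by
  have h : fodd n d ≤ K d := ((ex_K d).1.pull hn h5).fodd_le
  exact le_trans (by exact_mod_cast h) (K_le d).1

theorem limit_le {n : ℕ} (hn : Odd n) (h5 : 5 ≤ n) (a : ℝ)
    (ha : Filter.Tendsto (fun d : ℕ => ((fodd n d : ℕ) : ℝ) ^ ((1 : ℝ) / (d : ℝ)))
      Filter.atTop (nhds a)) : a ≤ 2.9176 := by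
  have h1 : Filter.Tendsto (fun d : ℕ => (1.06 : ℝ) ^ ((1 : ℝ) / (d : ℝ)) * 2.9176)
      Filter.atTop (nhds (1 * 2.9176)) := by
    apply Filter.Tendsto.mul_const
    have h2 : Filter.Tendsto (fun d : ℕ => (1 : ℝ) / (d : ℝ)) Filter.atTop (nhds 0) :=
      tendsto_one_div_atTop_nhds_zero_nat
    have h3 := (tendsto_const_nhds (x := (1.06 : ℝ))).rpow h2 (Or.inl (by norm_num))
    simpa using h3
  rw [one_mul] at h1
  refine le_of_tendsto_of_tendsto ha h1 ?_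
  filter_upwards [Filter.eventually_ge_atTop 1] with d hd
  have hd0 : (d : ℝ) ≠ 0 := by
    have : (0 : ℝ) < d := by exact_mod_cast hd
    exact this.ne'
  calc ((fodd n d : ℕ) : ℝ) ^ ((1 : ℝ) / (d : ℝ))
      ≤ (1.06 * 2.9176 ^ d) ^ ((1 : ℝ) / (d : ℝ)) :=
        Real.rpow_le_rpow (by positivity) (fodd_le hn h5 d) (by positivity)
    _ = (1.06 : ℝ) ^ ((1 : ℝ) / (d : ℝ)) * 2.9176 := by
        rw [Real.mul_rpow (by norm_num) (by positivity), ← Real.rpow_natCast (2.9176 : ℝ) d,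
          ← Real.rpow_mul (by norm_num), mul_one_div_cancel hd0, Real.rpow_one]

end Pool.Agent.R72.OddBox
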